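import Mathlib
import Pool.Agent.Lib.MP_ec866f_lc.Statement
import Pool.Agent.Lib.MP_ec866f_lc.Final

/-!
# ATR_0 does not prove Fraisse's conjecture

There is an omega-model of `ATR_0` in which Fraisse's conjecture (Laver's theorem) `FRA` fails.

The definitions are in `Lib/MP_ec866f_lc/Statement.lean`.

Outline of the proof. Let `M` be an omega-model of `ACA_0` satisfying `FRA`.

1. (`A9`) Signs `λ(s) ∈ {+, -}` of finite increasing sequences define nodes: `{n}` is a node and
   `s` is a node iff `s` minus its minimum is a node whose sign is the sign of the longest proper
   initial segment of `s` which is a node. The nodes with minimum `n` form a tree, and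
   iterated sums over `ω` or `ω*` according to the signs give linear orders `L_n`. From an
   embedding of `L_m` in `L_n`, `m < n`, one gets a branch in `M` with infinitely many nodes.
2. (`B3`) So there is no limit-computable (in `M`) colouring of infinite sets with three colours
   such that `X` and `X` minus its minimum always have different colours.
3. (`C5`) So for every sequence of limit-computable properties `A_i` of infinite sets there is
   `X ∈ M` such that `A_i` is eventually constant on the tails of `X`, for every `i`.
4. (`D9`) So every tree of `M` with a path bounded by `1` has a path `L ∈ M` which is leftmost
   among the paths arithmetical in `L` (arithmetical relative leftmost path principle).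
5. (`E13`) So every set of `M` belongs to a coded omega-model of `ATR_0` which belongs to `M`.
6. (`G7`) By a diagonal argument some omega-model of `ATR_0` contains no code of an omega-model
   of `ATR_0` with a given set; in this model `FRA` fails.
-/

open FR

namespace Pool.Agent.Results.MP_ec866f_lc.FraisseNotProvable

/-- **ATR_0 does not prove Fraisse's conjecture**: there is an omega-model of `ATR_0` in which
Fraisse's conjecture fails. -/
theorem result : ∃ M : Set (Set ℕ), ModelATR0 M ∧ ¬ FRA M :=
  FR.final

end Pool.Agent.Results.MP_ec866f_lc.FraisseNotProvable
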